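import Mathlib

set_option autoImplicit false

namespace Q137.AONT

/-- a bijection of the triples of elements of `Fin 6`; the triple `(a, b, c)` is coded by the number
`36 a + 6 b + c` -/
def tbl : List ℕ :=
  [
    129, 44, 2, 154, 35, 176, 49, 7, 137, 22, 163, 159,
    12, 142, 36, 168, 149, 27, 64, 205, 183, 89, 122, 90,
    210, 191, 69, 109, 98, 76, 196, 59, 200, 103, 81, 114,
    79, 37, 167, 70, 211, 189, 42, 172, 84, 198, 197, 57,
    177, 74, 50, 184, 65, 206, 132, 113, 99, 157, 20, 16,
    118, 107, 140, 25, 3, 144, 94, 127, 123, 11, 152, 30,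
    72, 202, 6, 138, 119, 105, 207, 14, 80, 124, 95, 128,
    1, 85, 215, 100, 133, 111, 148, 29, 170, 55, 51, 192,
    34, 175, 153, 41, 182, 60, 162, 161, 21, 187, 68, 46,
    169, 147, 28, 194, 54, 53, 155, 33, 174, 62, 40, 181,
    23, 164, 160, 45, 186, 67, 104, 82, 115, 0, 130, 214,
    87, 120, 91, 135, 201, 8, 110, 96, 77, 209, 13, 143,
    185, 63, 204, 92, 88, 121, 71, 212, 190, 75, 108, 97,
    199, 195, 58, 116, 102, 83, 9, 150, 31, 165, 141, 38,
    158, 18, 17, 131, 43, 173, 26, 4, 145, 48, 178, 136,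
    101, 134, 112, 15, 156, 19, 139, 117, 106, 146, 24, 5,
    125, 93, 126, 32, 10, 151, 188, 66, 47, 179, 73, 203,
    56, 52, 193, 78, 208, 166, 39, 180, 61, 213, 171, 86
  ]

/-- the value of the bijection, in coded form -/
def val (n : ℕ) : ℕ := tbl.getD n 0

/-- the digits of a code -/
def dig : Fin 3 → ℕ → ℕ
  | 0, n => n / 36 % 6
  | 1, n => n / 6 % 6
  | 2, n => n % 6

/-- the two digits different from digit `j` -/
def rest : Fin 3 → ℕ → ℕ
  | 0, n => (n / 6 % 6) * 6 + n % 6
  | 1, n => (n / 36 % 6) * 6 + n % 6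
  | 2, n => (n / 36 % 6) * 6 + n / 6 % 6

/-- input digit `i` together with the output digits different from digit `j` -/
def key (i j : Fin 3) (n : ℕ) : ℕ := dig i n * 36 + rest j (val n)

/-- the set of values of `f` on a list, as a bit mask -/
def mask (f : ℕ → ℕ) : List ℕ → ℕ
  | [] => 0
  | a :: l => (1 <<< f a) ||| mask f l

theorem testBit_mask (f : ℕ → ℕ) (k : ℕ) :
    ∀ l : List ℕ, (mask f l).testBit k = true → ∃ a ∈ l, f a = k
  | [], h => by simp [mask] at h
  | a :: l, h => by
      rw [mask, Nat.testBit_or, Bool.or_eq_true] at h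
      rcases h with h | h
      · refine ⟨a, by simp, ?_⟩
        rw [Nat.one_shiftLeft, Nat.testBit_two_pow] at h
        simpa using h
      · obtain ⟨b, hb, hk⟩ := testBit_mask f k l h
        exact ⟨b, by simp [hb], hk⟩

theorem mask_val : mask val (List.range 216) = 2 ^ 216 - 1 := by decide +kernel

theorem mask_key : ∀ i j : Fin 3, mask (key i j) (List.range 216) = 2 ^ 216 - 1 := by
  decide +kernel

theorem surj_of_mask (f : ℕ → ℕ) (h : mask f (List.range 216) = 2 ^ 216 - 1) {k : ℕ}
    (hk : k < 216) : ∃ n < 216, f n = k := by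
  have h1 : (mask f (List.range 216)).testBit k = true := by
    rw [h, Nat.testBit_two_pow_sub_one]
    simpa using hk
  obtain ⟨a, ha, hfa⟩ := testBit_mask f k _ h1
  exact ⟨a, by simpa using ha, hfa⟩

end Q137.AONT
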