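import Mathlib
import Pool.Agent.Q137.AONT.Table
import Pool.Agent.TH302.Tarry.Main

set_option autoImplicit false

namespace Q137.AONT

/-- digits: the triple coded by `n` -/
def dec (n : ℕ) : Fin 3 → Fin 6 :=
  ![⟨n / 36 % 6, Nat.mod_lt _ (by norm_num)⟩, ⟨n / 6 % 6, Nat.mod_lt _ (by norm_num)⟩,
    ⟨n % 6, Nat.mod_lt _ (by norm_num)⟩]

/-- the code of a triple -/
def enc (x : Fin 3 → Fin 6) : ℕ := 36 * (x 0).val + 6 * (x 1).val + (x 2).val

theorem enc_lt (x : Fin 3 → Fin 6) : enc x < 216 := by
  have h0 := (x 0).2; have h1 := (x 1).2; have h2 := (x 2).2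
  unfold enc; omega

theorem dec_enc (x : Fin 3 → Fin 6) : dec (enc x) = x := by
  have h0 := (x 0).2; have h1 := (x 1).2; have h2 := (x 2).2
  funext i
  fin_cases i
  · apply Fin.ext; simp [dec, enc]; omega
  · apply Fin.ext; simp [dec, enc]; omega
  · apply Fin.ext; simp [dec, enc]; omega

theorem enc_dec {n : ℕ} (hn : n < 216) : enc (dec n) = n := by
  simp only [dec, enc, Matrix.cons_val_zero, Matrix.cons_val_one, Matrix.cons_val]
  omega

/-- the transform -/
def phi (x : Fin 3 → Fin 6) : Fin 3 → Fin 6 := dec (val (enc x))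

theorem phi_surj : Function.Surjective phi := by
  intro y
  obtain ⟨n, hn, h⟩ := surj_of_mask val mask_val (enc_lt y)
  refine ⟨dec n, ?_⟩
  rw [phi, enc_dec hn, h, dec_enc]

theorem phi_bij : Function.Bijective phi :=
  Finite.surjective_iff_bijective.1 phi_surj

theorem dec_val (n : ℕ) (k : Fin 3) : (dec n k).val = dig k n := by
  fin_cases k <;> simp [dec, dig]

theorem dig_eq_of_rest {j k : Fin 3} (hk : k ≠ j) {m n : ℕ} (h : rest j m = rest j n) :
    dig k m = dig k n := by
  fin_cases j <;> fin_cases k <;> simp only [rest, dig] at h ⊢ <;>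
    first
    | (exact absurd rfl hk)
    | omega

theorem rest_lt (j : Fin 3) (m : ℕ) : rest j m < 36 := by
  fin_cases j <;> simp only [rest] <;> omega

/-- for prescribed input digit `i` and prescribed output digits different from `j` there is a
triple -/
theorem exists_of_key (i j : Fin 3) (u : Fin 6) (y : Fin 3 → Fin 6) :
    ∃ x : Fin 3 → Fin 6, x i = u ∧ ∀ k, k ≠ j → phi x k = y k := by
  have hu := u.2
  have hr := rest_lt j (enc y)
  obtain ⟨n, hn, h⟩ := surj_of_mask (key i j) (mask_key i j) (k := u.val * 36 + rest j (enc y))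
    (by omega)
  have hr' := rest_lt j (val n)
  unfold key at h
  have h1 : dig i n = u.val := by omega
  have h2 : rest j (val n) = rest j (enc y) := by omega
  refine ⟨dec n, ?_, ?_⟩
  · apply Fin.ext
    rw [← h1, dec_val]
  · intro k hk
    rw [phi, enc_dec hn]
    apply Fin.ext
    rw [dec_val, dig_eq_of_rest hk h2, ← dec_val, dec_enc]

/-- `φ : X^s → X^s` is a `t`-all-or-nothing transform -/
def IsAONT {X : Type*} (t s : ℕ) (φ : (Fin s → X) → (Fin s → X)) : Prop :=
  Function.Bijective φ ∧
    ∀ I J : Finset (Fin s), I.card = t → J.card = t →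
      Function.Bijective (fun x : Fin s → X =>
        ((fun i => x i.1, fun j => φ x j.1) : ({i // i ∈ I} → X) × ({j // j ∉ J} → X)))

/-- a surjective map between these sets is bijective -/
theorem bij_of_surj {X : Type*} [Fintype X] {t s : ℕ} {I J : Finset (Fin s)} (hI : I.card = t)
    (hJ : J.card = t) {f : (Fin s → X) → ({i // i ∈ I} → X) × ({j // j ∉ J} → X)}
    (hf : Function.Surjective f) : Function.Bijective f := by
  classical
  rw [Fintype.bijective_iff_surjective_and_card]
  refine ⟨hf, ?_⟩
  have hts : t ≤ s := by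
    have := I.card_le_univ
    rw [hI, Fintype.card_fin] at this
    exact this
  have hJ' : Fintype.card {j // j ∉ J} = s - t := by
    rw [Fintype.card_subtype_compl, Fintype.card_fin]
    simp [hJ]
  have hI' : Fintype.card {i // i ∈ I} = t := by simp [hI]
  rw [Fintype.card_prod, Fintype.card_fun, Fintype.card_fun, Fintype.card_fun, Fintype.card_fin,
    hI', hJ', ← pow_add, Nat.add_sub_cancel' hts]

theorem exists_one_three_six :
    ∃ φ : (Fin 3 → Fin 6) → (Fin 3 → Fin 6), IsAONT 1 3 φ := by
  classical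
  refine ⟨phi, phi_bij, fun I J hI hJ => bij_of_surj hI hJ ?_⟩
  obtain ⟨i, rfl⟩ := Finset.card_eq_one.1 hI
  obtain ⟨j, rfl⟩ := Finset.card_eq_one.1 hJ
  rintro ⟨a, b⟩
  obtain ⟨x, hx, hy⟩ := exists_of_key i j (a ⟨i, by simp⟩)
    (fun k => if hk : k ∉ ({j} : Finset (Fin 3)) then b ⟨k, hk⟩ else 0)
  refine ⟨x, ?_⟩
  apply Prod.ext
  · funext i'
    obtain ⟨i', hi'⟩ := i'
    have : i' = i := by simpa using hi'
    subst this
    exact hx
  · funext k
    obtain ⟨k, hk⟩ := k
    have hk' : k ≠ j := by simpa using hk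
    have := hy k hk'
    simp only [hk, not_false_eq_true, dif_pos] at this
    exact this

theorem not_exists_one_two_six :
    ¬ ∃ φ : (Fin 2 → Fin 6) → (Fin 2 → Fin 6), IsAONT 1 2 φ := by
  classical
  rintro ⟨φ, hb, h⟩
  have key : ∀ (i j : Fin 2) (x x' : Fin 2 → Fin 6), x i = x' i → (∀ k, k ≠ j → φ x k = φ x' k) →
      x = x' := by
    intro i j x x' h1 h2
    apply (h {i} {j} (by simp) (by simp)).1
    apply Prod.ext
    · funext i'
      obtain ⟨i', hi'⟩ := i'
      have : i' = i := by simpa using hi'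
      subst this
      exact h1
    · funext k
      obtain ⟨k, hk⟩ := k
      exact h2 k (by simpa using hk)
  have inj : ∀ (j : Fin 2), (∀ i, Function.Injective fun c => φ ![i, c] j) ∧
      ∀ c, Function.Injective fun i => φ ![i, c] j := by
    intro j
    constructor
    · intro i c c' hc
      have hx : ![i, c] = ![i, c'] := by
        apply key 0 (j + 1)
        · rfl
        · intro k hk
          have : k = j := by fin_cases k <;> fin_cases j <;> simp_all
          rw [this]
          exact hc
      exact congrFun hx 1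
    · intro c i i' hc
      have hx : ![i, c] = ![i', c] := by
        apply key 1 (j + 1)
        · rfl
        · intro k hk
          have : k = j := by fin_cases k <;> fin_cases j <;> simp_all
          rw [this]
          exact hc
      exact congrFun hx 0
  refine Pool.Agent.TH302.Tarry.tarry (fun i c => φ ![i, c] 0) (fun i c => φ ![i, c] 1)
    (inj 0).1 (inj 0).2 (inj 1).1 (inj 1).2 ?_
  intro i c i' c' h0 h1
  have hx : ![i, c] = ![i', c'] := by
    apply hb.1
    funext k
    fin_cases k
    · exact h0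
    · exact h1
  exact ⟨congrFun hx 0, congrFun hx 1⟩

/-- an AONT can be transported along a bijection of the alphabets -/
theorem IsAONT.transport {X Y : Type*} (e : X ≃ Y) {t s : ℕ} {φ : (Fin s → X) → (Fin s → X)}
    (h : IsAONT t s φ) : IsAONT t s (fun y => e ∘ φ (e.symm ∘ y)) := by
  refine ⟨?_, ?_⟩
  · have h1 : (fun y : Fin s → Y => e ∘ φ (e.symm ∘ y)) =
        (Equiv.arrowCongr (Equiv.refl _) e) ∘ φ ∘ (Equiv.arrowCongr (Equiv.refl _) e).symm := by
      funext y; rfl
    rw [h1]
    exact (Equiv.bijective _).comp (h.1.comp (Equiv.bijective _))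
  · intro I J hI hJ
    have h2 := h.2 I J hI hJ
    have h1 : (fun y : Fin s → Y => ((fun i => y i.1, fun j => (e ∘ φ (e.symm ∘ y)) j.1) :
          ({i // i ∈ I} → Y) × ({j // j ∉ J} → Y))) =
        (Equiv.prodCongr (Equiv.arrowCongr (Equiv.refl _) e) (Equiv.arrowCongr (Equiv.refl _) e)) ∘
          (fun x : Fin s → X =>
            ((fun i => x i.1, fun j => φ x j.1) : ({i // i ∈ I} → X) × ({j // j ∉ J} → X))) ∘
          (Equiv.arrowCongr (Equiv.refl _) e).symm := by
      funext y
      apply Prod.ext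
      · funext i
        simp
      · funext j
        simp
        rfl
    rw [h1]
    exact (Equiv.bijective _).comp (h2.comp (Equiv.bijective _))

theorem exists_iff_of_equiv {X Y : Type*} (e : X ≃ Y) (t s : ℕ) :
    (∃ φ : (Fin s → X) → (Fin s → X), IsAONT t s φ) ↔
      ∃ φ : (Fin s → Y) → (Fin s → Y), IsAONT t s φ :=
  ⟨fun ⟨_, h⟩ => ⟨_, h.transport e⟩, fun ⟨_, h⟩ => ⟨_, h.transport e.symm⟩⟩

end Q137.AONT
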